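import Pool.Agent.Q92.AR.EvenL
import Pool.Agent.Q92.AR.All

/-!
# Entire quotients of Dedekind zeta functions

`L/K` is an extension of number fields.  If `ord ζ_K ≤ ord ζ_L` at every point `s₀ ≠ 1` with
`Re s₀ > 0`, then `ζ_L/ζ_K` extends to an entire function.
-/

set_option autoImplicit false
set_option linter.unusedSectionVars false

namespace Pool.Agent.Q92.DD

open NumberField Complex Filter Topology Pool.Agent.Q92.AR Pool.Agent.Y773

/-- the quotient of two entire functions, if the zeros of the denominator are zeros of the numerator -/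
theorem entire_quotient {f g : ℂ → ℂ} (hf : Differentiable ℂ f) (hg : Differentiable ℂ g)
    (hft : ∀ z, meromorphicOrderAt f z ≠ ⊤)
    (h : ∀ z, meromorphicOrderAt f z ≤ meromorphicOrderAt g z) :
    ∃ q : ℂ → ℂ, Differentiable ℂ q ∧ ∀ z, f z ≠ 0 → q z = g z / f z := by
  have hm : MeromorphicOn (fun z => g z / f z) Set.univ := fun z _ =>
    (hg.analyticAt z).meromorphicAt.fun_div (hf.analyticAt z).meromorphicAt
  let q := toMeromorphicNFOn (fun z => g z / f z) Set.univ
  have hq : ∀ z, AnalyticAt ℂ q z := by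
    intro z
    have h1 : MeromorphicNFAt q z := meromorphicNFOn_toMeromorphicNFOn _ _ (Set.mem_univ z)
    rw [← h1.meromorphicOrderAt_nonneg_iff_analyticAt]
    have h2 : q =ᶠ[𝓝[≠] z] fun z => g z / f z :=
      hm.toMeromorphicNFOn_eq_self_on_nhdsNE (Set.mem_univ z)
    rw [meromorphicOrderAt_congr h2, fun_meromorphicOrderAt_div (hg.analyticAt z).meromorphicAt
      (hf.analyticAt z).meromorphicAt]
    obtain ⟨a, ha⟩ := WithTop.ne_top_iff_exists.1 (hft z)
    have h3 := h z
    rw [← ha] at h3 ⊢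
    cases hb : meromorphicOrderAt g z with
    | top => exact le_top
    | coe b =>
      rw [hb] at h3
      have h4 : a ≤ b := WithTop.coe_le_coe.1 h3
      have h5 : ((b : WithTop ℤ) - (a : WithTop ℤ)) = ((b - a : ℤ) : WithTop ℤ) := rfl
      rw [h5]
      exact_mod_cast sub_nonneg.2 h4
  refine ⟨q, fun z => (hq z).differentiableAt, fun z hz => ?_⟩
  have h1 : AnalyticAt ℂ (fun z => g z / f z) z := (hg.analyticAt z).fun_div (hf.analyticAt z) hz
  have h2 : q =ᶠ[𝓝[≠] z] fun z => g z / f z :=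
    hm.toMeromorphicNFOn_eq_self_on_nhdsNE (Set.mem_univ z)
  exact tendsto_nhds_unique (((hq z).continuousAt.tendsto.mono_left nhdsWithin_le_nhds).congr' h2)
    (h1.continuousAt.tendsto.mono_left nhdsWithin_le_nhds)

section
variable (K L : Type) [Field K] [NumberField K] [Field L] [NumberField L] [Algebra K L]

open scoped Classical in
theorem ex_zero (φ : K →+* ℂ) : G.ex (fun _ : InfinitePlace K => 0) φ =
    if (InfinitePlace.mk φ).IsReal ∨ (InfinitePlace.mk φ).embedding = φ then 0 else 1 := by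
  unfold G.ex
  by_cases h : (InfinitePlace.mk φ).IsReal
  · rw [if_pos h, if_pos (Or.inl h)]
  · by_cases h2 : (InfinitePlace.mk φ).embedding = φ
    · rw [if_neg h, if_pos h2, if_pos (Or.inr h2)]
    · rw [if_neg h, if_neg h2, if_neg (not_or.2 ⟨h, h2⟩)]

/-- extensions of the embeddings -/
theorem exists_emb : ∃ ι : (K →+* ℂ) → (L →+* ℂ), Function.Injective ι ∧
    ∀ φ, G.ex (fun _ : InfinitePlace L => 0) (ι φ) = G.ex (fun _ : InfinitePlace K => 0) φ := by
  classical
  have : Algebra.IsAlgebraic K L := inferInstance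
  choose e he' using InfinitePlace.comap_surjective (k := K) (K := L)
  have he : ∀ w, (e w).comap (algebraMap K L) = w := he'
  let ι : (K →+* ℂ) → (L →+* ℂ) := fun φ =>
    if (InfinitePlace.mk φ).IsReal ∨ (InfinitePlace.mk φ).embedding = φ then
      (e (InfinitePlace.mk φ)).embedding
    else ComplexEmbedding.conjugate (e (InfinitePlace.mk φ)).embedding
  have hmk : ∀ φ, InfinitePlace.mk (ι φ) = e (InfinitePlace.mk φ) := by
    intro φ
    change InfinitePlace.mk (if _ then _ else _) = _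
    split_ifs with h
    · exact InfinitePlace.mk_embedding _
    · rw [InfinitePlace.mk_conjugate_eq, InfinitePlace.mk_embedding]
  have hex : ∀ φ, G.ex (fun _ : InfinitePlace L => 0) (ι φ) =
      G.ex (fun _ : InfinitePlace K => 0) φ := by
    intro φ
    rw [ex_zero, ex_zero, hmk]
    by_cases h : (InfinitePlace.mk φ).IsReal ∨ (InfinitePlace.mk φ).embedding = φ
    · have h1 : ι φ = (e (InfinitePlace.mk φ)).embedding := if_pos h
      rw [if_pos h, h1, if_pos (Or.inr rfl)]
    · have h1 : ι φ = ComplexEmbedding.conjugate (e (InfinitePlace.mk φ)).embedding := if_neg h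
      have h2 : ¬ (e (InfinitePlace.mk φ)).IsReal := by
        intro h3
        have h4 := h3.comap (algebraMap K L)
        rw [he] at h4
        exact h (Or.inl h4)
      rw [if_neg h, if_neg]
      rintro (h3 | h3)
      · exact h2 h3
      · rw [h1] at h3
        exact h2 (InfinitePlace.isReal_iff.2 h3.symm)
  refine ⟨ι, ?_, hex⟩
  intro φ φ' h
  have h1 : InfinitePlace.mk φ = InfinitePlace.mk φ' := by
    have h2 := congrArg InfinitePlace.mk h
    rw [hmk, hmk] at h2
    rw [← he (InfinitePlace.mk φ), h2, he]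
  have h2 : G.ex (fun _ : InfinitePlace K => 0) φ = G.ex (fun _ : InfinitePlace K => 0) φ' := by
    rw [← hex, ← hex, h]
  rcases InfinitePlace.mk_eq_iff.1 h1 with h3 | h3
  · exact h3
  by_cases hr : (InfinitePlace.mk φ).IsReal
  · rw [InfinitePlace.isReal_mk_iff] at hr
    rw [← h3]
    exact hr.symm
  rw [ex_zero, ex_zero, ← h1] at h2
  have h4 : (InfinitePlace.mk φ).embedding = φ ∨ (InfinitePlace.mk φ).embedding = φ' := by
    have h5 : InfinitePlace.mk φ = InfinitePlace.mk (InfinitePlace.mk φ).embedding :=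
      (InfinitePlace.mk_embedding _).symm
    rcases InfinitePlace.mk_eq_iff.1 h5 with h6 | h6
    · exact Or.inl h6.symm
    · exact Or.inr (h6.symm.trans h3)
  rcases h4 with h5 | h5
  · rw [if_pos (Or.inr h5)] at h2
    by_contra hne
    rw [if_neg (not_or.2 ⟨hr, fun h6 => hne (h5.symm.trans h6)⟩)] at h2
    exact zero_ne_one h2
  · rw [if_pos (Or.inr h5 : _ ∨ (InfinitePlace.mk φ).embedding = φ')] at h2
    by_contra hne
    rw [if_neg (not_or.2 ⟨hr, fun h6 => hne (h6.symm.trans h5)⟩)] at h2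
    exact zero_ne_one h2.symm

/-- the quotient of the gamma factors -/
theorem gam_quot : ∃ E : ℂ → ℂ, Differentiable ℂ E ∧ ∀ s : ℂ, 0 < s.re →
    E s * GG (Ideal.absNorm (differentIdeal ℤ (𝓞 L)) : ℝ) (G.ex fun _ : InfinitePlace L => 0) s =
      GG (Ideal.absNorm (differentIdeal ℤ (𝓞 K)) : ℝ) (G.ex fun _ : InfinitePlace K => 0) s := by
  classical
  obtain ⟨ι, hι, hex⟩ := exists_emb K L
  have hRK := norm_diff_pos K
  have hRL := norm_diff_pos L
  set RK : ℝ := (Ideal.absNorm (differentIdeal ℤ (𝓞 K)) : ℝ) with hRK'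
  set RL : ℝ := (Ideal.absNorm (differentIdeal ℤ (𝓞 L)) : ℝ) with hRL'
  have hK0 : (RK : ℂ) ≠ 0 := by exact_mod_cast hRK.ne'
  have hL0 : (RL : ℂ) ≠ 0 := by exact_mod_cast hRL.ne'
  let T : Finset (L →+* ℂ) := Finset.univ \ Finset.univ.image ι
  refine ⟨fun s => (RK : ℂ) ^ (s / 2) * (RL : ℂ) ^ (-(s / 2)) *
    ∏ Φ ∈ T, (Complex.Gammaℝ (s + (G.ex (fun _ : InfinitePlace L => 0) Φ : ℂ)))⁻¹, ?_, ?_⟩
  · have h1 : Differentiable ℂ fun s : ℂ => (RK : ℂ) ^ (s / 2) := fun s =>
      (differentiableAt_id.div_const 2).const_cpow (Or.inl hK0)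
    have h2 : Differentiable ℂ fun s : ℂ => (RL : ℂ) ^ (-(s / 2)) := fun s =>
      (differentiableAt_id.div_const 2).neg.const_cpow (Or.inl hL0)
    refine (h1.mul h2).mul ?_
    refine Differentiable.fun_finsetProd fun Φ _ => ?_
    exact differentiable_Gammaℝ_inv.comp (differentiable_id.add_const _)
  · intro s hs
    have hg : ∀ n : ℕ, Complex.Gammaℝ (s + n) ≠ 0 := fun n => by
      refine Gammaℝ_ne_zero_of_re_pos ?_
      rw [add_re, natCast_re]
      positivity
    unfold GG
    have h1 : ∏ Φ : L →+* ℂ, Complex.Gammaℝ (s + (G.ex (fun _ : InfinitePlace L => 0) Φ : ℂ)) =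
        (∏ Φ ∈ T, Complex.Gammaℝ (s + (G.ex (fun _ : InfinitePlace L => 0) Φ : ℂ))) *
          ∏ φ : K →+* ℂ, Complex.Gammaℝ (s + (G.ex (fun _ : InfinitePlace K => 0) φ : ℂ)) := by
      rw [← Finset.prod_sdiff (Finset.subset_univ (Finset.univ.image ι)),
        Finset.prod_image fun _ _ _ _ h => hι h]
      congr 1
      exact Finset.prod_congr rfl fun φ _ => by rw [hex]
    dsimp only
    rw [h1, Finset.prod_inv_distrib]
    have h2 : ∏ Φ ∈ T, Complex.Gammaℝ (s + (G.ex (fun _ : InfinitePlace L => 0) Φ : ℂ)) ≠ 0 :=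
      Finset.prod_ne_zero_iff.2 fun Φ _ => hg _
    have h3 : (RL : ℂ) ^ (-(s / 2)) * (RL : ℂ) ^ (s / 2) = 1 := by
      rw [← Complex.cpow_add _ _ hL0, neg_add_cancel, Complex.cpow_zero]
    field_simp
    linear_combination ((RK : ℂ) ^ (s / 2) *
      ∏ φ : K →+* ℂ, Complex.Gammaℝ (s + (G.ex (fun _ : InfinitePlace K => 0) φ : ℂ))) * h3

variable {K L}

/-- **Entire quotients.** -/
theorem entire_of_order
    (hord : ∀ s₀ : ℂ, 0 < s₀.re → s₀ ≠ 1 →
      meromorphicOrderAt (cont (NumberField.dedekindZeta K)) s₀ ≤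
        meromorphicOrderAt (cont (NumberField.dedekindZeta L)) s₀)
    (hK : ∃ g : ℂ → ℂ, Continues g (NumberField.dedekindZeta K))
    (hL : ∃ g : ℂ → ℂ, Continues g (NumberField.dedekindZeta L)) :
    ∃ g : ℂ → ℂ, Differentiable ℂ g ∧ ∀ s : ℂ, 1 < s.re →
      g s = NumberField.dedekindZeta L s / NumberField.dedekindZeta K s := by
  obtain ⟨U, hU, hUe, hUfe⟩ := exists_xi K
  obtain ⟨V, hV, hVe, hVfe⟩ := exists_xi L
  have hfK := cont_spec hK
  have hfL := cont_spec hL
  have hzK : ∀ s : ℂ, 1 < s.re → NumberField.dedekindZeta K s ≠ 0 := fun s hs => by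
    rw [zeta_eq_LP hs]
    exact LP_ne_zero _ _ _
  -- orders of the completed functions, `Re s > 0`, `s ≠ 1`
  have key : ∀ (F : Type) [Field F] [NumberField F] (W : ℂ → ℂ) (f : ℂ → ℂ),
      Differentiable ℂ W → Continues f (NumberField.dedekindZeta F) →
      (∀ s : ℂ, 1 < s.re → W s = s * (s - 1) *
        (GG (Ideal.absNorm (differentIdeal ℤ (𝓞 F)) : ℝ) (G.ex fun _ : InfinitePlace F => 0) s *
          NumberField.dedekindZeta F s)) → ∀ s₀ : ℂ, 0 < s₀.re → s₀ ≠ 1 →
      meromorphicOrderAt W s₀ = meromorphicOrderAt f s₀ := by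
    intro F _ _ W f hW hf hWe s₀ h0 h1
    have h2 := xi_eventually F hf hW hWe h0
    rw [meromorphicOrderAt_congr h2, fun_meromorphicOrderAt_mul
      (gamK_analytic F h0).meromorphicAt (hf.1 _ (Set.mem_univ _)),
      (gamK_analytic F h0).meromorphicOrderAt_eq,
      (gamK_analytic F h0).analyticOrderAt_eq_zero.2 (gamK_ne_zero F h0 h1)]
    simp
  -- `U` is not zero at `1`
  have hU1 : U 1 ≠ 0 := by
    have hG : ContinuousAt (fun s : ℂ => s * GG (Ideal.absNorm (differentIdeal ℤ (𝓞 K)) : ℝ)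
        (G.ex fun _ : InfinitePlace K => 0) s) 1 := by
      have h := Pool.Agent.Q246.HPk.GG_diff (norm_diff_pos K)
        (G.ex fun _ : InfinitePlace K => 0) (s := 1) (by simp)
      exact continuousAt_id.mul h.continuousAt
    have hr : Tendsto (fun s : ℝ => ((s : ℝ) : ℂ)) (𝓝[>] 1) (𝓝 1) := by
      have h := (Complex.continuous_ofReal.tendsto (1 : ℝ)).mono_left
        (nhdsWithin_le_nhds (s := Set.Ioi (1 : ℝ)))
      simpa using h
    have h1 : Tendsto (fun s : ℝ => U s) (𝓝[>] 1) (𝓝 (U 1)) :=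
      (hU.continuous.tendsto 1).comp hr
    have h2 : Tendsto (fun s : ℝ => ((s : ℂ) * GG (Ideal.absNorm (differentIdeal ℤ (𝓞 K)) : ℝ)
        (G.ex fun _ : InfinitePlace K => 0) s) * (((s : ℂ) - 1) * NumberField.dedekindZeta K s))
        (𝓝[>] 1) (𝓝 (((1 : ℂ) * GG (Ideal.absNorm (differentIdeal ℤ (𝓞 K)) : ℝ)
        (G.ex fun _ : InfinitePlace K => 0) 1) * (NumberField.dedekindZeta_residue K : ℝ))) :=
      (hG.tendsto.comp hr).mul (NumberField.tendsto_sub_one_mul_dedekindZeta_nhdsGT K)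
    have h3 : U 1 = ((1 : ℂ) * GG (Ideal.absNorm (differentIdeal ℤ (𝓞 K)) : ℝ)
        (G.ex fun _ : InfinitePlace K => 0) 1) * (NumberField.dedekindZeta_residue K : ℝ) := by
      refine tendsto_nhds_unique (h1.congr' ?_) h2
      filter_upwards [self_mem_nhdsWithin] with s hs
      have hs' : 1 < ((s : ℝ) : ℂ).re := by simpa using hs
      rw [hUe s hs']
      ring
    rw [h3, one_mul]
    refine mul_ne_zero ?_ (by exact_mod_cast NumberField.dedekindZeta_residue_ne_zero K)
    unfold GG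
    refine mul_ne_zero ?_ (G.gam_ne_zero _ (by simp))
    rw [Ne, Complex.cpow_eq_zero_iff]
    intro h
    have := norm_diff_pos K
    have h2 : (Ideal.absNorm (differentIdeal ℤ (𝓞 K)) : ℝ) = 0 := by exact_mod_cast h.1
    linarith
  have hUt : ∀ z, meromorphicOrderAt U z ≠ ⊤ := by
    intro z hz
    rw [(hU.analyticAt z).meromorphicOrderAt_eq, ENat.map_eq_top_iff, analyticOrderAt_eq_top] at hz
    have h1 : AnalyticOnNhd ℂ U Set.univ := fun s _ => hU.analyticAt s
    have h2 := h1.eqOn_zero_of_preconnected_of_eventuallyEq_zero isPreconnected_univ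
      (Set.mem_univ z) hz
    exact hU1 (h2 (Set.mem_univ 1))
  -- all orders
  have hpos : ∀ z : ℂ, 0 < z.re → meromorphicOrderAt U z ≤ meromorphicOrderAt V z := by
    intro z hz
    by_cases h1 : z = 1
    · subst h1
      rw [(hU.analyticAt 1).meromorphicOrderAt_eq, (hU.analyticAt 1).analyticOrderAt_eq_zero.2 hU1]
      have := (hV.analyticAt 1).meromorphicOrderAt_nonneg
      simpa using this
    · rw [key K U _ hU hfK hUe z hz h1, key L V _ hV hfL hVe z hz h1]
      exact hord z hz h1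
  have hsym : ∀ (W : ℂ → ℂ), Differentiable ℂ W → (∀ s, W (1 - s) = W s) → ∀ z : ℂ,
      meromorphicOrderAt W z = meromorphicOrderAt W (1 - z) := by
    intro W hW hWs z
    have h1 : (fun s => W (1 - s)) = W := funext hWs
    have hd : HasDerivAt (fun s : ℂ => 1 - s) (-1) z := by
      simpa using (hasDerivAt_id z).const_sub 1
    have h2 := meromorphicOrderAt_comp_of_deriv_ne_zero (f := W) (g := fun s : ℂ => 1 - s) (x := z)
      (by fun_prop) (by rw [hd.deriv]; norm_num)
    have h3 : W ∘ (fun s : ℂ => 1 - s) = W := h1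
    rw [h3] at h2
    exact h2
  have hall : ∀ z : ℂ, meromorphicOrderAt U z ≤ meromorphicOrderAt V z := by
    intro z
    by_cases hz : 0 < z.re
    · exact hpos z hz
    · rw [hsym U hU hUfe z, hsym V hV hVfe z]
      refine hpos _ ?_
      rw [sub_re, one_re]
      linarith
  obtain ⟨q, hq, hqe⟩ := entire_quotient hU hV hUt hall
  obtain ⟨E, hE, hEe⟩ := gam_quot K L
  refine ⟨fun s => q s * E s, hq.mul hE, fun s hs => ?_⟩
  have hs0 : 0 < s.re := by linarith
  have hs1 : s ≠ 1 := by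
    rintro rfl
    simp at hs
  have h0 : s ≠ 0 := by
    rintro rfl
    rw [zero_re] at hs0
    exact lt_irrefl _ hs0
  have hgK := gamK_ne_zero K hs0 hs1
  have hgL := gamK_ne_zero L hs0 hs1
  unfold gamK at hgK hgL
  have hUs : U s ≠ 0 := by
    rw [hUe s hs, ← mul_assoc]
    exact mul_ne_zero hgK (hzK s hs)
  dsimp only
  rw [hqe s hUs, hUe s hs, hVe s hs, ← hEe s hs0] at *
  have h2 : E s ≠ 0 := fun h => hgK (by rw [h]; ring)
  have h3 := hzK s hs
  have h4 : GG (Ideal.absNorm (differentIdeal ℤ (𝓞 L)) : ℝ)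
      (G.ex fun _ : InfinitePlace L => 0) s ≠ 0 := fun h => hgL (by rw [h]; ring)
  have h5 := sub_ne_zero.2 hs1
  field_simp

end

end Pool.Agent.Q92.DD
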